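import Mathlib
import Pool.Agent.Run7.h29.HB2

namespace Pool.Agent.Results.MP_bdd3c1_nt.DicksonBound

open Run7.h29

/-- Explicit finiteness theorem: if the proper divisors of `n ≠ 2` sum to `⌊n / 2⌋`, `n` has `r`
distinct prime factors other than `3`, and `3 ^ a` is the exact power of `3` dividing `n`, then
`n < 3 ^ ((a + 1) 4 ^ r)`. -/
theorem result (n : ℕ) (hn : 0 < n) (h : (∑ i ∈ n.properDivisors, i) = n / 2) (h2 : n ≠ 2) :
    n < 3 ^ ((n.factorization 3 + 1) * 4 ^ (n.primeFactors.erase 3).card) := by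
  obtain ⟨hodd, heq⟩ := basic hn h h2
  have hxy : 3 ^ n.factorization 3 * (n / 3 ^ n.factorization 3) = n :=
    Nat.ordProj_mul_ordCompl_eq_self n 3
  have hcop : Nat.Coprime 3 (n / 3 ^ n.factorization 3) :=
    Nat.coprime_ordCompl Nat.prime_three hn.ne'
  set a := n.factorization 3 with ha
  set m := n / 3 ^ a with hm
  have hm0 : m ≠ 0 := by
    intro h0
    rw [h0, mul_zero] at hxy
    omega
  have hcop' : Nat.Coprime (3 ^ a) m := Nat.Coprime.pow_left _ hcop
  have hs : sg n = sg (3 ^ a) * sg m := by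
    conv_lhs => rw [← hxy]
    exact sg_mul hcop'
  have hg := sg_pow_mul Nat.prime_three a
  set T := 3 ^ (a + 1) with hT
  have e1 : T = 3 * 3 ^ a := by rw [hT, pow_succ, mul_comm]
  have hT1 : 3 ≤ T := by
    have : 1 ≤ 3 ^ a := Nat.one_le_pow _ _ (by norm_num)
    omega
  have heq' : (T - 1) * sg m + 1 = T * m := by
    rw [hs] at heq
    conv_rhs at heq => rw [← hxy]
    have e2 : T - 1 = 2 * sg (3 ^ a) := by omega
    rw [e2, e1]
    linarith
  have hcopT : Nat.Coprime T m := by rw [hT]; exact Nat.Coprime.pow_left _ hcop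
  have hmodd : m % 2 = 1 := by
    rcases Nat.mod_two_eq_zero_or_one m with h0 | h0
    · exfalso
      have : 2 ∣ n := by
        rw [← hxy]
        exact dvd_mul_of_dvd_right (Nat.dvd_of_mod_eq_zero h0) _
      omega
    · exact h0
  have hpf : n.primeFactors.erase 3 = m.primeFactors := by
    have h3m : 3 ∉ m.primeFactors := by
      intro hmem
      have h4 := Nat.dvd_gcd (dvd_refl 3) (Nat.dvd_of_mem_primeFactors hmem)
      rw [hcop] at h4
      omega
    have h1 : n.primeFactors = (3 ^ a).primeFactors ∪ m.primeFactors := by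
      conv_lhs => rw [← hxy]
      exact hcop'.primeFactors_mul
    rcases Nat.eq_zero_or_pos a with h0 | h0
    · rw [h1, h0]
      simp only [pow_zero, Nat.primeFactors_one, Finset.empty_union]
      exact Finset.erase_eq_of_notMem h3m
    · rw [h1, Nat.primeFactors_prime_pow h0.ne' Nat.prime_three, Finset.singleton_union,
        Finset.erase_insert h3m]
  rw [hpf]
  have key := bound_hb (2 * m.primeFactors.card) (T - 1) T m ∅ (by omega) hm0 hmodd hcopT heq'
    (Finset.empty_subset _) (by simp)
  rw [Finset.prod_empty, mul_one, Nat.sub_add_cancel (by omega : 1 ≤ T)] at key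
  have e3 : 2 ^ (2 * m.primeFactors.card) = 4 ^ m.primeFactors.card := by
    rw [pow_mul]; norm_num
  rw [e3, hT, ← pow_mul, ← hT] at key
  refine lt_of_lt_of_le ?_ key
  have e4 : T * m = 3 * n := by rw [e1, mul_assoc, hxy]
  rw [e4]
  omega

end Pool.Agent.Results.MP_bdd3c1_nt.DicksonBound
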