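import Mathlib
import Pool.Agent.Run7.h29.Basic

namespace Pool.Agent.Results.MP_bdd3c1_nt.EulerForm

open Run7.h29

/-- If `n` satisfies Graham's equation, `n ≠ 2`, and the exponent of `3` in `n` is even, then the
number of primes other than `3` that divide `n` to an odd power is not `1`. -/
theorem result (n : ℕ) (hn : 0 < n) (h : (∑ i ∈ n.properDivisors, i) = n / 2) (h2 : n ≠ 2)
    (h3 : Even (n.factorization 3)) :
    (n.primeFactors.filter (fun p => p ≠ 3 ∧ Odd (n.factorization p))).card ≠ 1 := by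
  intro hcard
  obtain ⟨hodd, heq⟩ := basic hn h h2
  obtain ⟨p, hp⟩ := Finset.card_eq_one.mp hcard
  have hpm : p ∈ n.primeFactors.filter (fun p => p ≠ 3 ∧ Odd (n.factorization p)) := by
    rw [hp]; exact Finset.mem_singleton_self p
  rw [Finset.mem_filter] at hpm
  obtain ⟨hpn, hp3, hpe⟩ := hpm
  have hpp : p.Prime := Nat.prime_of_mem_primeFactors hpn
  have hpd : p ∣ n := Nat.dvd_of_mem_primeFactors hpn
  -- n = p * s ^ 2
  obtain ⟨a, b, hab, hsq⟩ := Nat.sq_mul_squarefree n
  have ha0 : a ≠ 0 := hsq.ne_zero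
  have hb0 : b ≠ 0 := by
    rintro rfl
    simp at hab
    omega
  have hfac : ∀ q, n.factorization q = 2 * b.factorization q + a.factorization q := by
    intro q
    rw [← hab, Nat.factorization_mul (pow_ne_zero 2 hb0) ha0, Nat.factorization_pow]
    simp
  have hle : ∀ q, a.factorization q ≤ 1 := fun q => hsq.natFactorization_le_one q
  have hap : a.primeFactors = {p} := by
    rw [← hp]
    ext q
    rw [Finset.mem_filter]
    constructor
    · intro hq
      have hqp : q.Prime := Nat.prime_of_mem_primeFactors hq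
      have hqa : q ∣ a := Nat.dvd_of_mem_primeFactors hq
      have h1 : a.factorization q = 1 := by
        have := hqp.factorization_pos_of_dvd ha0 hqa
        have := hle q
        omega
      have hodd' : Odd (n.factorization q) := by
        rw [hfac q, h1]; exact ⟨b.factorization q, rfl⟩
      refine ⟨?_, ?_, hodd'⟩
      · rw [Nat.mem_primeFactors]
        exact ⟨hqp, hab ▸ dvd_mul_of_dvd_right hqa _, hn.ne'⟩
      · rintro rfl
        exact (Nat.not_odd_iff_even.mpr h3) hodd'
    · rintro ⟨hq, _, hqo⟩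
      have hqp : q.Prime := Nat.prime_of_mem_primeFactors hq
      rw [Nat.mem_primeFactors]
      refine ⟨hqp, ?_, ha0⟩
      by_contra hnd
      have h0 : a.factorization q = 0 := Nat.factorization_eq_zero_of_not_dvd hnd
      rw [hfac q, h0] at hqo
      simp at hqo
      exact absurd hqo (by simp)
  have hapeq : a = p := by
    have := Nat.prod_primeFactors_of_squarefree hsq
    rw [hap, Finset.prod_singleton] at this
    exact this.symm
  subst hapeq
  -- `a + 1` divides `sg n`
  have hdvd : a + 1 ∣ sg n := by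
    have hsplit : a ^ n.factorization a * (n / a ^ n.factorization a) = n :=
      Nat.ordProj_mul_ordCompl_eq_self n a
    have hcop : Nat.Coprime (a ^ n.factorization a) (n / a ^ n.factorization a) :=
      Nat.Coprime.pow_left _ (Nat.coprime_ordCompl hpp hn.ne')
    rw [← hsplit, sg_mul hcop]
    exact dvd_mul_of_dvd_left (by simpa [hsplit] using succ_dvd_sg_pow hpp hpe) _
  obtain ⟨c, hc⟩ := hdvd
  -- parity
  have hbodd : Odd b := by
    by_contra hbe
    rw [Nat.not_odd_iff_even] at hbe
    have : Even n := by rw [← hab]; exact (hbe.pow_of_ne_zero (by norm_num)).mul_right _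
    exact (Nat.not_odd_iff_even.mpr this) hodd
  have haodd : Odd a := by
    by_contra hae
    rw [Nat.not_odd_iff_even] at hae
    have : Even n := by rw [← hab]; exact hae.mul_left _
    exact (Nat.not_odd_iff_even.mpr this) hodd
  have hb8 : b ^ 2 % 8 = 1 := by
    obtain ⟨k, hk⟩ := hbodd
    have h1 : b % 8 = 1 ∨ b % 8 = 3 ∨ b % 8 = 5 ∨ b % 8 = 7 := by omega
    rcases h1 with h | h | h | h <;> simp [Nat.pow_mod, h]
  have hn8 : n % 8 = a % 8 := by
    rw [← hab, Nat.mul_mod, hb8, one_mul, Nat.mod_mod]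
  -- a % 4 = 3
  have ha4 : a % 4 = 3 := by
    rcases Nat.odd_mod_four_iff.mp (Nat.odd_iff.mp haodd) with h1 | h1
    · exfalso
      obtain ⟨k, hk⟩ : ∃ k, a = 4 * k + 1 := ⟨a / 4, by omega⟩
      have : sg n = 2 * ((2 * k + 1) * c) := by rw [hc, hk]; ring
      omega
    · exact h1
  have ha8 : a % 8 = 3 := by
    obtain ⟨k, hk⟩ : ∃ k, a + 1 = 4 * k := ⟨(a + 1) / 4, by omega⟩
    have : sg n = 4 * (k * c) := by rw [hc, hk]; ring
    omega
  obtain ⟨w, hw⟩ : ∃ w, a + 1 = 4 * w := ⟨(a + 1) / 4, by omega⟩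
  have hwodd : w % 2 = 1 := by omega
  have hw3 : w % 3 = 1 := by
    apply mod_three_of_primes (by omega)
    intro l hl hlw
    have hla : l ∣ a + 1 := hw ▸ dvd_mul_of_dvd_right hlw 4
    have hl2 : l ≠ 2 := by rintro rfl; omega
    have hl3n : l ∣ 3 * n - 1 := by
      have : 3 * n - 1 = 2 * sg n := by omega
      rw [this, hc]
      exact dvd_mul_of_dvd_right (dvd_mul_of_dvd_left hla c) 2
    have hl3 : l ≠ 3 := by
      rintro rfl
      omega
    apply prime_mod_three hl hl2 hl3 (x := 3 * b)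
    -- 3 n ≡ 1 and a ≡ -1 mod l : 9 b² + 3 ≡ 0
    have hkey : (3 * b) ^ 2 + 3 = 9 * b ^ 2 * (a + 1) - 3 * (3 * n - 1) := by
      have : 3 * (3 * n - 1) = 9 * n - 3 := by omega
      rw [this, ← hab]
      have h9 : 9 * b ^ 2 * (a + 1) = 9 * (b ^ 2 * a) + 9 * b ^ 2 := by ring
      have h1 : 1 ≤ b ^ 2 * a := by rw [hab]; exact hn
      have h10 : (3 * b) ^ 2 = 9 * b ^ 2 := by ring
      omega
    rw [hkey]
    exact Nat.dvd_sub (dvd_mul_of_dvd_right hla _) (dvd_mul_of_dvd_right hl3n 3)
  have : a % 3 = 0 := by omega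
  have h3a : 3 ∣ a := Nat.dvd_of_mod_eq_zero this
  exact hp3 ((Nat.prime_dvd_prime_iff_eq Nat.prime_three hpp).mp h3a).symm

end Pool.Agent.Results.MP_bdd3c1_nt.EulerForm
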