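import Mathlib
import Pool.Agent.Run7.h29.Top
import Pool.Agent.Run7.h29.Two2
import Pool.Agent.Run7.h29.KG

namespace Pool.Agent.Results.MP_bdd3c1_nt.FourPrimes

open Run7.h29

/-- A counterexample to Graham's statement has at least four distinct prime factors, and if it has
exactly four, then it is divisible by `3 ^ 5`. -/
theorem result (n : ℕ) (hn : 0 < n) (h : (∑ i ∈ n.properDivisors, i) = n / 2) (h2 : n ≠ 2)
    (h3 : ∀ k : ℕ, n ≠ 3 ^ k) :
    4 ≤ n.primeFactors.card ∧ (n.primeFactors.card = 4 → 3 ^ 5 ∣ n) := by
  obtain ⟨a, m, hnm, hm, hbig, hcop, heq, _⟩ := reduce hn h h2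
  have hm1 : 1 ≤ m.primeFactors.card := by
    by_contra hc
    have hc0 : m.primeFactors.card = 0 := by omega
    have := one_of_card_zero hm hc0
    subst this
    exact h3 a (by rw [hnm, mul_one])
  rcases Nat.eq_zero_or_pos a with ha | ha
  · subst ha
    rw [pow_zero, one_mul] at hnm
    subst hnm
    norm_num at heq
    have h6 : 6 ≤ n.primeFactors.card := by
      by_contra hlt
      exact no_3 hm1 (by omega) ⟨n, hm, rfl, hbig, heq⟩
    exact ⟨by omega, fun h4 => by omega⟩
  · have hc := card_three (a := a) (by omega) hm hcop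
    rw [← hnm] at hc
    have key : ∀ r : ℕ, m.primeFactors.card = r → Sol (3 ^ (a + 1) - 1) (3 ^ (a + 1)) 3 r :=
      fun r hr => ⟨m, hm, hr, hbig, heq⟩
    have hge3 : 3 ≤ m.primeFactors.card := by
      by_contra hlt
      rcases Nat.lt_or_ge a 2 with ha2 | ha2
      · have : a = 1 := by omega
        subst this
        have := key _ rfl
        norm_num at this
        exact no_9 hm1 (by omega) this
      · have hcase : m.primeFactors.card = 1 ∨ m.primeFactors.card = 2 := by omega
        rcases hcase with h1 | h1
        · exact no_one (by omega) (key 1 h1)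
        · exact no_two (by omega) (key 2 h1)
    refine ⟨by omega, fun h4 => ?_⟩
    have hr : m.primeFactors.card = 3 := by omega
    have ha5 : 5 ≤ a := by
      by_contra hlt
      have hcase : a = 1 ∨ a = 2 ∨ a = 3 ∨ a = 4 := by omega
      have hk := key 3 hr
      rcases hcase with rfl | rfl | rfl | rfl
      · norm_num at hk
        exact no_9 (by norm_num) (by norm_num) hk
      · norm_num at hk
        exact ex_sound 2 26 27 3 (by norm_num) (by norm_num) (by norm_num) w_27 hk
      · norm_num at hk
        exact ex_sound 2 80 81 3 (by norm_num) (by norm_num) (by norm_num) w_81 hk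
      · norm_num at hk
        exact ex_sound 2 242 243 3 (by norm_num) (by norm_num) (by norm_num) w_243 hk
    rw [hnm]
    exact dvd_mul_of_dvd_left (pow_dvd_pow 3 ha5) m

end Pool.Agent.Results.MP_bdd3c1_nt.FourPrimes
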