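import Mathlib
import Pool.Agent.Run7.h29.Top

namespace Pool.Agent.Results.MP_bdd3c1_nt.SixPrimes

open Run7.h29

/-- A counterexample to Graham's statement that is not divisible by `9` has at least six distinct
prime factors. -/
theorem result (n : ℕ) (hn : 0 < n) (h : (∑ i ∈ n.properDivisors, i) = n / 2) (h2 : n ≠ 2)
    (h3 : ∀ k : ℕ, n ≠ 3 ^ k) (h9 : ¬ 9 ∣ n) : 6 ≤ n.primeFactors.card := by
  obtain ⟨a, m, hnm, hm, hbig, hcop, heq, _⟩ := reduce hn h h2
  have hm1 : 1 ≤ m.primeFactors.card := by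
    by_contra hc
    have hc0 : m.primeFactors.card = 0 := by omega
    have := one_of_card_zero hm hc0
    subst this
    exact h3 a (by rw [hnm, mul_one])
  have ha : a = 0 ∨ a = 1 := by
    by_contra hcon
    have ha2 : 2 ≤ a := by omega
    apply h9
    rw [hnm]
    have : 3 ^ 2 ∣ 3 ^ a := pow_dvd_pow 3 ha2
    norm_num at this
    exact dvd_mul_of_dvd_left this m
  by_contra hlt
  rcases ha with rfl | rfl
  · rw [pow_zero, one_mul] at hnm
    subst hnm
    norm_num at heq
    exact no_3 hm1 (by omega) ⟨n, hm, rfl, hbig, heq⟩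
  · have hc := card_three (a := 1) one_ne_zero hm hcop
    rw [← hnm] at hc
    norm_num at heq
    exact no_9 hm1 (by omega) ⟨m, hm, rfl, hbig, heq⟩

end Pool.Agent.Results.MP_bdd3c1_nt.SixPrimes
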